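import Pool.Agent.K1H49.PL.Gen

/-!
# Project PL, general case: dense colours on the tree of binary sequences of length less than `Λ`
-/

set_option autoImplicit false

namespace Pool.Agent.K1H8.PLG

open Pool.Agent.K1H49.PL

section tree

variable {Λ : Type} [LinearOrder Λ]

theorem tlt_trans {d d' : Bool} {a b c : TI Λ} (h : tlt Λ d a b) (h' : tlt Λ d' b c) :
    tlt Λ d a c := by
  refine ⟨h.1.trans h'.1, fun x hx => ?_, ?_⟩
  · rw [h'.2.1 x (hx.trans h.1), h.2.1 x hx]
  · rw [h'.2.1 _ h.1, h.2.2]

/-- strictly above -/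
def ab (p q : TI Λ) : Prop := ∃ d, tlt Λ d p q

theorem ab_trans {a b c : TI Λ} (h : ab a b) (h' : ab b c) : ab a c := by
  obtain ⟨d, hd⟩ := h
  obtain ⟨d', hd'⟩ := h'
  exact ⟨d, tlt_trans hd hd'⟩

theorem ab_lev {a b : TI Λ} (h : ab a b) : a.1.1 < b.1.1 := by
  obtain ⟨d, hd⟩ := h
  exact hd.1

theorem ab_val {a b : TI Λ} (h : ab a b) (x : Λ) (hx : x < a.1.1) : b.1.2 x = a.1.2 x := by
  obtain ⟨d, hd⟩ := h
  exact hd.2.1 x hx

/-- the successor in a direction -/
theorem exists_succ [NoMaxOrder Λ] (q : TI Λ) (d : Bool) : ∃ q' : TI Λ, tlt Λ d q q' := by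
  classical
  obtain ⟨b, hb⟩ := exists_gt q.1.1
  refine ⟨⟨(b, fun x => if x = q.1.1 then d else q.1.2 x), fun x hx => ?_⟩, hb, fun x hx => ?_, ?_⟩
  · have h1 : x ≠ q.1.1 := fun h => absurd hx (not_le.2 (h ▸ hb))
    show (if x = q.1.1 then d else q.1.2 x) = false
    rw [if_neg h1]
    exact q.2 x (hb.le.trans hx)
  · show (if x = q.1.1 then d else q.1.2 x) = _
    rw [if_neg hx.ne]
  · show (if q.1.1 = q.1.1 then d else _) = d
    rw [if_pos rfl]

variable {C : Type} (f : TI Λ → C)

/-- the colours absent from the cone -/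
def KK (p : TI Λ) : Set C := {c | ∀ q, (q = p ∨ ab p q) → f q ≠ c}

theorem KK_mono {p q : TI Λ} (h : ab p q) : KK f p ⊆ KK f q := by
  intro c hc q' hq'
  refine hc q' (Or.inr ?_)
  rcases hq' with rfl | h'
  · exact h
  · exact ab_trans h h'

end tree

theorem t_COL : S_COL := by
  classical
  intro C Λ _ _ hne _ hcof f
  obtain ⟨l0⟩ := hne
  let r : TI Λ → TI Λ → Prop := fun p q => p = q ∨ (ab p q ∧ KK f p ⊂ KK f q)
  have hmax : ∃ m, ∀ a, r m a → r a m := by
    refine exists_maximal_of_chains_bounded (r := r) ?_ ?_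
    · intro Ch hCh
      by_cases hg : ∃ m ∈ Ch, ∀ a ∈ Ch, r a m
      · obtain ⟨m, -, hm⟩ := hg
        exact ⟨m, hm⟩
      · push Not at hg
        -- every element has a strictly larger one
        have hup : ∀ p ∈ Ch, ∃ q ∈ Ch, ab p q ∧ KK f p ⊂ KK f q := by
          intro p hp
          obtain ⟨q, hq, hqp⟩ := hg p hp
          have hpq : p ≠ q := by
            rintro rfl
            exact hqp (Or.inl rfl)
          rcases hCh hp hq hpq with h | h
          · rcases h with h | h
            · exact absurd h hpq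
            · exact ⟨q, hq, h⟩
          · exact absurd h hqp
        have hcmp : ∀ p ∈ Ch, ∀ q ∈ Ch, p = q ∨ ab p q ∨ ab q p := by
          intro p hp q hq
          by_cases hpq : p = q
          · exact Or.inl hpq
          · rcases hCh hp hq hpq with h | h
            · rcases h with h | h
              · exact Or.inl h
              · exact Or.inr (Or.inl h.1)
            · rcases h with h | h
              · exact Or.inl h.symm
              · exact Or.inr (Or.inr h.1)
        obtain ⟨b, hb⟩ := hcof fun c =>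
          if h : ∃ q ∈ Ch, c ∈ KK f q then (Classical.choose h).1.1 else l0
        have hlev : ∀ p ∈ Ch, p.1.1 < b := by
          intro p hp
          obtain ⟨q, hq, -, hK⟩ := hup p hp
          obtain ⟨c, hcq, hcp⟩ := Set.exists_of_ssubset hK
          have hex : ∃ q ∈ Ch, c ∈ KK f q := ⟨q, hq, hcq⟩
          have h1 := hb c
          simp only [dif_pos hex] at h1
          obtain ⟨h2, h3⟩ := Classical.choose_spec hex
          refine lt_trans ?_ h1
          rcases hcmp p hp _ h2 with h | h | h
          · rw [← h] at h3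
            exact absurd h3 hcp
          · exact ab_lev h
          · exact absurd (KK_mono f h h3) hcp
        let u : TI Λ := ⟨(b, fun x => decide (∃ q ∈ Ch, x < q.1.1 ∧ q.1.2 x = true)), by
          intro x hx
          simp only [decide_eq_false_iff_not]
          rintro ⟨q, hq, hxq, -⟩
          exact absurd hx (not_le.2 (hxq.trans (hlev q hq)))⟩
        have hu : ∀ p ∈ Ch, ab p u := by
          intro p hp
          refine ⟨u.1.2 p.1.1, hlev p hp, fun x hx => ?_, rfl⟩
          show decide (∃ q ∈ Ch, x < q.1.1 ∧ q.1.2 x = true) = p.1.2 x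
          by_cases hpx : p.1.2 x = true
          · rw [hpx, decide_eq_true_iff]
            exact ⟨p, hp, hx, hpx⟩
          · have hpx' : p.1.2 x = false := by simpa using hpx
            rw [hpx', decide_eq_false_iff_not]
            rintro ⟨q, hq, hxq, hqx⟩
            rcases hcmp p hp q hq with h | h | h
            · rw [← h] at hqx
              exact hpx hqx
            · rw [ab_val h x hx] at hqx
              exact hpx hqx
            · rw [← ab_val h x hxq] at hqx
              exact hpx hqx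
        refine ⟨u, fun p hp => Or.inr ⟨hu p hp, ?_⟩⟩
        obtain ⟨q, hq, -, hK⟩ := hup p hp
        exact lt_of_lt_of_le hK (KK_mono f (hu q hq))
    · rintro a b c (rfl | ⟨h1, h2⟩) (rfl | ⟨h3, h4⟩)
      · exact Or.inl rfl
      · exact Or.inr ⟨h3, h4⟩
      · exact Or.inr ⟨h1, h2⟩
      · exact Or.inr ⟨ab_trans h1 h3, lt_trans h2 h4⟩
  obtain ⟨p, hp⟩ := hmax
  have hK : ∀ q, ab p q → KK f q ⊆ KK f p := by
    intro q hq
    by_contra hcon
    have h1 : KK f p ⊂ KK f q := ⟨KK_mono f hq, hcon⟩
    rcases hp q (Or.inr ⟨hq, h1⟩) with h | h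
    · rw [h] at hq
      exact lt_irrefl _ (ab_lev hq)
    · exact lt_irrefl _ ((ab_lev hq).trans (ab_lev h.1))
  have hdense : ∀ q, (q = p ∨ ab p q) → ∃ q', (q' = q ∨ ab q q') ∧ f q' = f p := by
    intro q hq
    by_contra hcon
    push Not at hcon
    have h1 : f p ∈ KK f q := fun q' hq' => hcon q' hq'
    have h2 : f p ∈ KK f p := by
      rcases hq with rfl | hq
      · exact h1
      · exact hK q hq h1
    exact h2 p (Or.inl rfl) rfl
  let G : Type := {q : TI Λ // (q = p ∨ ab p q) ∧ f q = f p}
  have hnx : ∀ (q : G) (d : Bool), ∃ q' : G, tlt Λ d q.1 q'.1 := by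
    intro q d
    obtain ⟨s, hs⟩ := exists_succ q.1 d
    have hps : ab p s := by
      rcases q.2.1 with h | h
      · rw [← h]; exact ⟨d, hs⟩
      · exact ab_trans h ⟨d, hs⟩
    obtain ⟨q', hq', hf⟩ := hdense s (Or.inr hps)
    rcases hq' with rfl | hq'
    · exact ⟨⟨q', Or.inr hps, hf⟩, hs⟩
    · refine ⟨⟨q', Or.inr (ab_trans hps hq'), hf⟩, ?_⟩
      obtain ⟨e, he⟩ := hq'
      exact tlt_trans hs he
  choose nx hnx' using hnx
  let root : G := ⟨p, Or.inl rfl, rfl⟩
  refine ⟨fun π => (π.foldl nx root).1, ?_, f p, fun π => (π.foldl nx root).2.2⟩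
  intro π π' d hπ
  obtain ⟨τ, rfl⟩ := hπ
  have key : ∀ (τ : List Bool) (g : G), tlt Λ d (π.foldl nx root).1 g.1 →
      tlt Λ d (π.foldl nx root).1 (τ.foldl nx g).1 := by
    intro τ
    induction τ with
    | nil => intro g hg; exact hg
    | cons e τ ih =>
      intro g hg
      rw [List.foldl_cons]
      exact ih _ (tlt_trans hg (hnx' g e))
  have h1 : (π ++ [d] ++ τ).foldl nx root = τ.foldl nx (nx (π.foldl nx root) d) := by
    rw [List.foldl_append, List.foldl_append]
    rfl
  show tlt Λ d (π.foldl nx root).1 ((π ++ [d] ++ τ).foldl nx root).1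
  rw [h1]
  exact key τ _ (hnx' _ d)

end Pool.Agent.K1H8.PLG
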